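import Pool.Agent.Helper79.Comap
import Pool.Agent.TH138.LG.Pump

/-!
# A shuffle closure on which the insertion order is a well quasi-order and which is not context-free
-/

set_option autoImplicit false

namespace Pool.Agent.Results.MP_709eaf_lc.WqoNotContextFree

open List

variable {A : Type}

/-- One insertion step `u ⊢_I v`: `u = u₁ ⋯ u_n u_{n+1}`, `v = u₁ a₁ ⋯ u_n a_n u_{n+1}` with `n ≥ 1`
and `a₁ ⋯ a_n ∈ I`.  The list `l` holds the pairs `(u_i, a_i)` and `t` is `u_{n+1}`. -/
def Step (I : Set (List A)) (u v : List A) : Prop :=
  ∃ (l : List (List A × A)) (t : List A), l ≠ [] ∧ l.map Prod.snd ∈ I ∧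
    u = (l.map Prod.fst).flatten ++ t ∧ v = (l.map fun p => p.1 ++ [p.2]).flatten ++ t

/-- The reflexive-transitive closure of the insertion step. -/
def Derives (I : Set (List A)) : List A → List A → Prop := Relation.ReflTransGen (Step I)

/-- The shuffle closure `L_I`: the words derived from the empty word. -/
def shuffleClosure (I : Set (List A)) : Language A := {u | Derives I [] u}

/-- The quasi-order `r` is a well quasi-order on the set `L`. -/
def IsWqoOn (r : List A → List A → Prop) (L : Set (List A)) : Prop :=
  ∀ x : ℕ → List A, (∀ n, x n ∈ L) → ∃ i j, i < j ∧ r (x i) (x j)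

/-! ### Shuffles -/

inductive Shuf : List A → List A → List A → Prop
  | nil : Shuf [] [] []
  | left (a : A) {u w v : List A} : Shuf u w v → Shuf (a :: u) w (a :: v)
  | right (a : A) {u w v : List A} : Shuf u w v → Shuf u (a :: w) (a :: v)

theorem Shuf.of_sublist {u v : List A} (h : u <+ v) : ∃ w, Shuf u w v := by
  induction h with
  | slnil => exact ⟨[], .nil⟩
  | cons a _ ih => obtain ⟨w, hw⟩ := ih; exact ⟨a :: w, hw.right a⟩
  | cons_cons a _ ih => obtain ⟨w, hw⟩ := ih; exact ⟨w, hw.left a⟩

theorem Shuf.symm {u w v : List A} (h : Shuf u w v) : Shuf w u v := by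
  induction h with
  | nil => exact .nil
  | left a _ ih => exact ih.right a
  | right a _ ih => exact ih.left a

theorem Shuf.assoc {u w v : List A} (h : Shuf u w v) : ∀ {r t : List A}, Shuf r t w →
    ∃ v', Shuf u r v' ∧ Shuf v' t v := by
  induction h with
  | nil =>
    intro r t h
    cases h
    exact ⟨[], .nil, .nil⟩
  | left a _ ih =>
    intro r t h
    obtain ⟨v', h1, h2⟩ := ih h
    exact ⟨a :: v', h1.left a, h2.left a⟩
  | right a _ ih =>
    intro r t h
    cases h with
    | left _ h =>
      obtain ⟨v', h1, h2⟩ := ih h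
      exact ⟨a :: v', h1.right a, h2.left a⟩
    | right _ h =>
      obtain ⟨v', h1, h2⟩ := ih h
      exact ⟨v', h1, h2.right a⟩

theorem Shuf.length {u w v : List A} (h : Shuf u w v) : v.length = u.length + w.length := by
  induction h with
  | nil => rfl
  | left a _ ih => simp only [List.length_cons, ih]; omega
  | right a _ ih => simp only [List.length_cons, ih]; omega

theorem Shuf.count [DecidableEq A] {u w v : List A} (h : Shuf u w v) (x : A) :
    v.count x = u.count x + w.count x := by
  induction h with
  | nil => rfl
  | left a _ ih => simp only [List.count_cons, ih]; omega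
  | right a _ ih => simp only [List.count_cons, ih]; omega

theorem Shuf.eq_left {u v : List A} (h : Shuf u [] v) : u = v := by
  generalize hw : ([] : List A) = w at h
  induction h with
  | nil => rfl
  | left a _ ih => rw [ih hw]
  | right a _ _ => simp at hw

theorem Shuf.pairs {u w v : List A} (h : Shuf u w v) : ∃ (l : List (List A × A)) (t : List A),
    l.map Prod.snd = w ∧ u = (l.map Prod.fst).flatten ++ t ∧
      v = (l.map fun p => p.1 ++ [p.2]).flatten ++ t := by
  induction h with
  | nil => exact ⟨[], [], rfl, rfl, rfl⟩
  | left a _ ih =>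
    obtain ⟨l, t, h1, h2, h3⟩ := ih
    cases l with
    | nil => exact ⟨[], a :: t, h1, by simp [h2], by simp [h3]⟩
    | cons p l =>
      exact ⟨(a :: p.1, p.2) :: l, t, h1, by simp [h2], by simp [h3]⟩
  | right a _ ih =>
    obtain ⟨l, t, h1, h2, h3⟩ := ih
    exact ⟨([], a) :: l, t, by simp [h1], by simp [h2], by simp [h3]⟩

theorem Shuf.sublist {u w v : List A} (h : Shuf u w v) : u <+ v := by
  induction h with
  | nil => exact List.Sublist.refl _
  | left a _ ih => exact List.Sublist.cons_cons a ih
  | right a _ ih => exact List.Sublist.cons a ih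

theorem step_of_shuf {I : Set (List A)} {u w v : List A} (h : Shuf u w v) (hw : w ∈ I)
    (hne : w ≠ []) : Step I u v := by
  obtain ⟨l, t, h1, h2, h3⟩ := h.pairs
  refine ⟨l, t, ?_, h1 ▸ hw, h2, h3⟩
  rintro rfl
  exact hne h1.symm

theorem count_pairs [DecidableEq A] (x : A) (l : List (List A × A)) :
    ((l.map fun p => p.1 ++ [p.2]).flatten).count x =
      ((l.map Prod.fst).flatten).count x + (l.map Prod.snd).count x := by
  induction l with
  | nil => rfl
  | cons p l ih =>
    simp only [List.map_cons, List.flatten_cons, List.count_append, ih, List.count_cons,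
      List.count_nil]
    omega

theorem Step.count [DecidableEq A] {I : Set (List A)} {u v : List A} (h : Step I u v) :
    ∃ w ∈ I, ∀ x, v.count x = u.count x + w.count x := by
  obtain ⟨l, t, _, h1, h2, h3⟩ := h
  refine ⟨_, h1, fun x => ?_⟩
  rw [h2, h3, List.count_append, List.count_append, count_pairs]
  omega

/-! ### The six permutations of `abc` -/

/-- The set of the six permutations of the word `abc`. -/
def perms : Set (List (Fin 3)) := {w | w ~ [0, 1, 2]}

theorem perms_count {w : List (Fin 3)} (h : w ∈ perms) (x : Fin 3) : w.count x = 1 := by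
  have h' : w ~ [0, 1, 2] := h
  rw [h'.count_eq]
  revert x
  decide

/-- equal numbers of letters -/
def Bal (w : List (Fin 3)) : Prop := ∀ x y : Fin 3, w.count x = w.count y

theorem bal_of_derives {u v : List (Fin 3)} (h : Derives perms u v) (hu : Bal u) : Bal v := by
  induction h with
  | refl => exact hu
  | tail _ h ih =>
    obtain ⟨w, hw, hc⟩ := Step.count h
    intro x y
    rw [hc, hc, perms_count hw, perms_count hw, ih x y]

theorem derives_of_sublist : ∀ (n : ℕ) (u v : List (Fin 3)), v.length ≤ u.length + n →
    u <+ v → Bal u → Bal v → Derives perms u v := by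
  intro n
  induction n with
  | zero =>
    intro u v hn huv _ _
    rw [huv.eq_of_length_le (by simpa using hn)]
    exact Relation.ReflTransGen.refl
  | succ n ih =>
    intro u v hn huv hu hv
    obtain ⟨w, hw⟩ := Shuf.of_sublist huv
    have hwb : ∀ x y, w.count x = w.count y := by
      intro x y
      have h1 := hw.count x
      have h2 := hw.count y
      have h3 := hu x y
      have h4 := hv x y
      omega
    by_cases h0 : w = []
    · subst h0
      rw [hw.eq_left]
      exact Relation.ReflTransGen.refl
    · have hpos : ∀ x, 1 ≤ w.count x := by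
        intro x
        obtain ⟨a, ha⟩ := List.exists_mem_of_ne_nil w h0
        rw [hwb x a]
        exact List.one_le_count_iff.2 ha
      have hsp : [0, 1, 2] <+~ w := by
        rw [List.subperm_ext_iff]
        intro x hx
        refine le_trans ?_ (hpos x)
        revert x
        decide
      obtain ⟨t, ht, htw⟩ := hsp
      obtain ⟨r, hr⟩ := Shuf.of_sublist htw
      obtain ⟨v', h1, h2⟩ := hw.assoc hr.symm
      have htp : t ∈ perms := ht
      have htne : t ≠ [] := by
        rintro rfl
        have := ht.length_eq
        simp at this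
      have htl : t.length = 3 := ht.length_eq
      have hv' : Bal v' := by
        intro x y
        have e1 := h2.count x
        have e2 := h2.count y
        rw [perms_count htp] at e1 e2
        have e3 := hv x y
        omega
      have hl := h2.length
      have huv' : u <+ v' := h1.sublist
      refine Relation.ReflTransGen.tail (ih u v' (by omega) huv' hu hv') ?_
      exact step_of_shuf h2 htp htne

theorem mem_closure (w : List (Fin 3)) : w ∈ shuffleClosure perms ↔ Bal w := by
  constructor
  · intro h
    exact bal_of_derives h (fun _ _ => rfl)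
  · intro h
    exact derives_of_sublist w.length [] w (by simp) (List.nil_sublist w) (fun _ _ => rfl) h

theorem perms_finite : perms.Finite := by
  have : perms = {w | w ∈ ([0, 1, 2] : List (Fin 3)).permutations} := by
    ext w
    exact List.mem_permutations.symm
  rw [this]
  exact List.finite_toSet _

theorem wqo : IsWqoOn (Derives perms) (shuffleClosure perms : Set (List (Fin 3))) := by
  intro x hx
  have h1 : (Set.univ : Set (Fin 3)).PartiallyWellOrderedOn (· = ·) :=
    (Set.finite_univ).partiallyWellOrderedOn
  have h2 := Set.PartiallyWellOrderedOn.partiallyWellOrderedOn_sublistForall₂ _ h1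
  obtain ⟨i, j, hij, h⟩ := h2 (fun n => ⟨x n, fun y _ => Set.mem_univ y⟩)
  refine ⟨i, j, hij, ?_⟩
  change List.SublistForall₂ (· = ·) (x i) (x j) at h
  rw [List.sublistForall₂_iff] at h
  obtain ⟨l, hl, hs⟩ := h
  rw [List.forall₂_eq_eq_eq] at hl
  subst hl
  exact derives_of_sublist (x j).length _ _ (by omega) hs ((mem_closure _).1 (hx i))
    ((mem_closure _).1 (hx j))

/-! ### The closure is not context-free -/

/-- remembers the last letter; `3` is the dead state -/
def stp (s : Fin 4) (x : Fin 3) : Fin 4 := if s ≤ x.castSucc then x.castSucc else 3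

def MM : DFA (Fin 3) (Fin 4) := ⟨stp, 0, {s | s ≠ 3}⟩

theorem dead (w : List (Fin 3)) : w.foldl stp 3 = 3 := by
  induction w with
  | nil => rfl
  | cons x w ih =>
    rw [List.foldl_cons]
    have : stp 3 x = 3 := by revert x; decide
    rw [this, ih]

theorem sorted_of (w : List (Fin 3)) : ∀ s : Fin 4, w.foldl stp s ≠ 3 →
    (∀ x ∈ w, s ≤ x.castSucc) ∧ w.Pairwise (· ≤ ·) := by
  induction w with
  | nil => intro s _; simp
  | cons x w ih =>
    intro s h
    rw [List.foldl_cons] at h
    by_cases hs : s ≤ x.castSucc
    · have h1 : stp s x = x.castSucc := by simp [stp, hs]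
      rw [h1] at h
      obtain ⟨h2, h3⟩ := ih _ h
      refine ⟨?_, List.pairwise_cons.2 ⟨?_, h3⟩⟩
      · intro y hy
        rcases List.mem_cons.1 hy with rfl | hy
        · exact hs
        · exact hs.trans (h2 y hy)
      · intro y hy
        exact Fin.castSucc_le_castSucc_iff.1 (h2 y hy)
    · have h1 : stp s x = 3 := by simp [stp, hs]
      rw [h1, dead] at h
      exact absurd rfl h

theorem of_sorted (w : List (Fin 3)) : ∀ s : Fin 4, s ≠ 3 → (∀ x ∈ w, s ≤ x.castSucc) →
    w.Pairwise (· ≤ ·) → w.foldl stp s ≠ 3 := by
  induction w with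
  | nil => intro s h _ _; exact h
  | cons x w ih =>
    intro s _ h2 h3
    rw [List.foldl_cons]
    have h1 : stp s x = x.castSucc := by simp [stp, h2 x List.mem_cons_self]
    rw [h1]
    rw [List.pairwise_cons] at h3
    refine ih _ ?_ ?_ h3.2
    · exact (by decide : ∀ x : Fin 3, x.castSucc ≠ 3) x
    · intro y hy
      exact Fin.castSucc_le_castSucc_iff.2 (h3.1 y hy)

theorem mem_MM (w : List (Fin 3)) : w ∈ MM.accepts ↔ w.Pairwise (· ≤ ·) := by
  constructor
  · intro h
    exact (sorted_of w 0 h).2
  · intro h
    exact of_sorted w 0 (by decide) (fun x _ => Fin.zero_le _) h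

theorem one_letter {u v z : List (Fin 3)} (h : (u ++ (v ++ v) ++ z).Pairwise (· ≤ ·)) :
    ∀ x ∈ v, ∀ y ∈ v, x = y := by
  have h1 : (v ++ v).Pairwise (· ≤ ·) :=
    h.sublist ((List.sublist_append_right _ _).trans (List.sublist_append_left _ _))
  have h2 := (List.pairwise_append.1 h1).2.2
  intro x hx y hy
  exact le_antisymm (h2 x hx y hy) (h2 y hy x hx)

theorem count_rep (x a : Fin 3) (n : ℕ) :
    (List.replicate n a).count x = if x = a then n else 0 := by
  rw [List.count_replicate]
  by_cases h : x = a
  · subst h; simp
  · have : a ≠ x := fun h' => h h'.symm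
    simp [h, this]

theorem not_cf : ¬ (shuffleClosure perms).IsContextFree := by
  rintro ⟨g, hg⟩
  obtain ⟨g', hg'⟩ :=
    Pool.Agent.Helper79.Trans.isContextFree_comap_inter (fun a : Fin 3 => [a]) MM g
  have hmem : ∀ w : List (Fin 3), w ∈ g'.language ↔ Bal w ∧ w.Pairwise (· ≤ ·) := by
    intro w
    rw [hg']
    change (w.flatMap (fun a => [a]) ∈ g.language ∧ w ∈ MM.accepts) ↔ _
    rw [hg, mem_MM]
    have : w.flatMap (fun a => [a]) = w := by
      induction w with
      | nil => rfl
      | cons a w ih => rw [List.flatMap_cons, ih]; rfl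
    rw [this, mem_closure]
  set N := Pool.Agent.TH138.LG.width g' ^ (Pool.Agent.TH138.LG.inputs g').card + 1 with hN
  set w : List (Fin 3) := List.replicate N 0 ++ List.replicate N 1 ++ List.replicate N 2 with hw
  have hcount : ∀ x, w.count x = N := by
    intro x
    rw [hw, List.count_append, List.count_append, count_rep, count_rep, count_rep]
    fin_cases x <;> simp
  have hwm : w ∈ g'.language := by
    rw [hmem]
    refine ⟨fun x y => by rw [hcount, hcount], ?_⟩
    rw [hw, List.pairwise_append, List.pairwise_append]
    refine ⟨⟨?_, ?_, ?_⟩, ?_, ?_⟩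
    · exact List.pairwise_replicate.2 (Or.inr le_rfl)
    · exact List.pairwise_replicate.2 (Or.inr le_rfl)
    · intro a ha b hb
      rw [List.eq_of_mem_replicate ha]
      exact Fin.zero_le _
    · exact List.pairwise_replicate.2 (Or.inr le_rfl)
    · intro a _ b hb
      rw [List.eq_of_mem_replicate hb]
      exact Fin.le_last a
  have hlen : Pool.Agent.TH138.LG.width g' ^ (Pool.Agent.TH138.LG.inputs g').card < w.length := by
    have h1 := hcount 0
    have h2 := List.count_le_length (a := (0 : Fin 3)) (l := w)
    omega
  obtain ⟨u, v, x, y, z, he, hne, hp⟩ := Pool.Agent.TH138.LG.pumping hwm hlen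
  have h2 := (hmem _).1 (hp 2)
  have h0 := (hmem _).1 (hp 0)
  have hv : ∀ s ∈ v, ∀ t ∈ v, s = t := by
    apply one_letter (u := u) (z := x ++ (List.replicate 2 y).flatten ++ z)
    simpa [List.append_assoc] using h2.2
  have hy : ∀ s ∈ y, ∀ t ∈ y, s = t := by
    apply one_letter (u := u ++ (List.replicate 2 v).flatten ++ x) (z := z)
    simpa [List.append_assoc] using h2.2
  have hb : ∀ s t, v.count s + y.count s = v.count t + y.count t := by
    intro s t
    have h3 := h0.1 s t
    have h4 := (hmem _).1 hwm
    have h5 := h4.1 s t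
    rw [he] at h5
    simp only [List.count_append, List.replicate_zero, List.flatten_nil, List.count_nil] at h3 h5
    omega
  have hpos : ∀ s, 1 ≤ v.count s + y.count s := by
    intro s
    rcases hne with h | h
    · obtain ⟨a, ha⟩ := List.exists_mem_of_ne_nil _ h
      rw [hb s a]
      have := List.one_le_count_iff.2 ha
      omega
    · obtain ⟨a, ha⟩ := List.exists_mem_of_ne_nil _ h
      rw [hb s a]
      have := List.one_le_count_iff.2 ha
      omega
  have hin : ∀ s : Fin 3, s ∈ v ∨ s ∈ y := by
    intro s
    by_contra hc
    push Not at hc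
    have h1 := List.count_eq_zero.2 hc.1
    have h2 := List.count_eq_zero.2 hc.2
    have := hpos s
    omega
  rcases hin 0 with h0 | h0 <;> rcases hin 1 with h1 | h1 <;> rcases hin 2 with h2 | h2
  · exact absurd (hv _ h0 _ h1) (by decide)
  · exact absurd (hv _ h0 _ h1) (by decide)
  · exact absurd (hv _ h0 _ h2) (by decide)
  · exact absurd (hy _ h1 _ h2) (by decide)
  · exact absurd (hv _ h1 _ h2) (by decide)
  · exact absurd (hy _ h0 _ h2) (by decide)
  · exact absurd (hy _ h0 _ h1) (by decide)
  · exact absurd (hy _ h0 _ h1) (by decide)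

/-- There are a finite alphabet and a finite set `I` of nonempty words such that the insertion
quasi-order of `I` is a well quasi-order on the shuffle closure of `I`, which is not
context-free. -/
theorem result : ∃ I : Set (List (Fin 3)), I.Finite ∧ [] ∉ I ∧
    IsWqoOn (Derives I) (shuffleClosure I : Set (List (Fin 3))) ∧
    ¬ (shuffleClosure I).IsContextFree :=
  ⟨perms, perms_finite, fun h => by simpa using List.Perm.length_eq h, wqo, not_cf⟩

end Pool.Agent.Results.MP_709eaf_lc.WqoNotContextFree
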